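import Mathlib

/-!
Abstract purity for 0-Hecke words (subword complexes of the symmetric group), via rank functions.
-/

namespace Pool.Agent.R671.JS

open Finset

/-- swap the values at the positions `c`, `c+1` -/
def sw (w : ℕ → ℕ) (c : ℕ) : ℕ → ℕ := fun i => w (Equiv.swap c (c+1) i)

/-- the 0-Hecke step -/
def step (w : ℕ → ℕ) (c : ℕ) : ℕ → ℕ := if w c < w (c+1) then sw w c else w

/-- number of positions `< p` whose value satisfies `P` -/
def cnt (P : ℕ → Prop) [DecidablePred P] (w : ℕ → ℕ) (p : ℕ) : ℕ :=
  ((range p).filter (fun i => P (w i))).card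

/-- the rank function -/
def R (w : ℕ → ℕ) (q p : ℕ) : ℕ := cnt (fun a => a < q) w p

/-- the number of inversions among the positions `< m` -/
def inv (m : ℕ) (w : ℕ → ℕ) : ℕ := ∑ i ∈ range m, cnt (fun a => w i < a) w i

lemma cnt_zero (P : ℕ → Prop) [DecidablePred P] (w : ℕ → ℕ) : cnt P w 0 = 0 := by simp [cnt]

lemma cnt_succ (P : ℕ → Prop) [DecidablePred P] (w : ℕ → ℕ) (p : ℕ) :
    cnt P w (p+1) = cnt P w p + if P (w p) then 1 else 0 := by
  unfold cnt
  rw [range_add_one, filter_insert]
  split_ifs
  · rw [card_insert_of_notMem (by simp)]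
  · simp

lemma sw_left (w : ℕ → ℕ) (c : ℕ) : sw w c c = w (c+1) := by simp [sw]
lemma sw_right (w : ℕ → ℕ) (c : ℕ) : sw w c (c+1) = w c := by simp [sw]
lemma sw_other (w : ℕ → ℕ) (c i : ℕ) (h1 : i ≠ c) (h2 : i ≠ c+1) : sw w c i = w i := by
  simp [sw, Equiv.swap_apply_of_ne_of_ne h1 h2]

lemma sw_sw (w : ℕ → ℕ) (c : ℕ) : sw (sw w c) c = w := by
  funext i; simp [sw]

lemma sw_inj (w : ℕ → ℕ) (c : ℕ) (h : Function.Injective w) : Function.Injective (sw w c) := by
  intro a b hab
  exact (Equiv.swap c (c+1)).injective (h hab)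

lemma cnt_sw_low (P : ℕ → Prop) [DecidablePred P] (w : ℕ → ℕ) (c : ℕ) :
    ∀ p, p ≤ c → cnt P (sw w c) p = cnt P w p := by
  intro p
  induction p with
  | zero => intro _; simp [cnt_zero]
  | succ p ih =>
    intro hp
    rw [cnt_succ, cnt_succ, ih (by omega), sw_other w c p (by omega) (by omega)]

lemma cnt_sw_high (P : ℕ → Prop) [DecidablePred P] (w : ℕ → ℕ) (c : ℕ) :
    ∀ d, cnt P (sw w c) (c+2+d) = cnt P w (c+2+d) := by
  intro d
  induction d with
  | zero =>
    rw [Nat.add_zero, show c + 2 = (c+1)+1 from rfl, cnt_succ, cnt_succ, cnt_succ, cnt_succ,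
      cnt_sw_low P w c c le_rfl, sw_left, sw_right]
    omega
  | succ d ih =>
    rw [← Nat.add_assoc, cnt_succ, cnt_succ, ih, sw_other w c _ (by omega) (by omega)]

lemma cnt_sw_ne (P : ℕ → Prop) [DecidablePred P] (w : ℕ → ℕ) (c p : ℕ) (hp : p ≠ c+1) :
    cnt P (sw w c) p = cnt P w p := by
  rcases Nat.lt_or_ge c p with h | h
  · obtain ⟨d, rfl⟩ := Nat.exists_eq_add_of_le (show c + 2 ≤ p by omega)
    exact cnt_sw_high P w c d
  · exact cnt_sw_low P w c p h

lemma R_succ (w : ℕ → ℕ) (q p : ℕ) : R w q (p+1) = R w q p + if w p < q then 1 else 0 :=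
  cnt_succ _ w p

lemma R_step_ne (w : ℕ → ℕ) (c q p : ℕ) (hp : p ≠ c+1) : R (step w c) q p = R w q p := by
  unfold step
  split_ifs
  · exact cnt_sw_ne _ w c p hp
  · rfl

lemma R_step_eq (w : ℕ → ℕ) (c q : ℕ) :
    R (step w c) q (c+1) = max (R w q c) (R w q (c+2) - 1) := by
  have h1 : R w q (c+2) = R w q c + (if w c < q then 1 else 0) + (if w (c+1) < q then 1 else 0) := by
    rw [show c + 2 = (c+1)+1 from rfl, R_succ, R_succ]
  rw [R_succ, R_step_ne w c q c (by omega), h1]
  unfold step
  by_cases h : w c < w (c+1)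
  · rw [if_pos h, sw_left]
    split_ifs <;> omega
  · rw [if_neg h]
    split_ifs <;> omega

lemma R_le_min (w : ℕ → ℕ) (c q : ℕ) : R w q (c+1) ≤ min (R w q c + 1) (R w q (c+2)) := by
  have h1 : R w q (c+2) = R w q (c+1) + (if w (c+1) < q then 1 else 0) := by
    rw [show c + 2 = (c+1)+1 from rfl, R_succ]
  have h2 := R_succ w q c
  split_ifs at h1 h2 <;> omega

lemma R_asc (w : ℕ → ℕ) (c q : ℕ) (h : w c ≤ w (c+1)) :
    R w q (c+1) = min (R w q c + 1) (R w q (c+2)) := by
  have h1 : R w q (c+2) = R w q (c+1) + (if w (c+1) < q then 1 else 0) := by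
    rw [show c + 2 = (c+1)+1 from rfl, R_succ]
  have h2 := R_succ w q c
  split_ifs at h1 h2 <;> omega

lemma inv_sw_low (w : ℕ → ℕ) (c : ℕ) : inv c (sw w c) = inv c w := by
  unfold inv
  refine sum_congr rfl (fun i hi => ?_)
  have hi' := mem_range.1 hi
  rw [sw_other w c i (by omega) (by omega)]
  exact cnt_sw_low _ w c i (by omega)

lemma inv_succ (w : ℕ → ℕ) (m : ℕ) : inv (m+1) w = inv m w + cnt (fun a => w m < a) w m := by
  unfold inv
  rw [sum_range_succ]

lemma inv_sw (w : ℕ → ℕ) (c : ℕ) (h : w c < w (c+1)) :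
    ∀ d, inv (c+2+d) (sw w c) = inv (c+2+d) w + 1 := by
  intro d
  induction d with
  | zero =>
    rw [Nat.add_zero, show c + 2 = (c+1)+1 from rfl, inv_succ, inv_succ, inv_succ, inv_succ,
      inv_sw_low, sw_left, sw_right, cnt_succ, cnt_succ, cnt_sw_low _ w c c le_rfl,
      cnt_sw_low _ w c c le_rfl, sw_left, if_pos h, if_neg (by omega)]
    omega
  | succ d ih =>
    rw [← Nat.add_assoc, inv_succ, inv_succ, ih, sw_other w c _ (by omega) (by omega),
      cnt_sw_high]
    omega

variable {α : Type*} [DecidableEq α]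

/-- the 0-Hecke product; the head of the list is applied last -/
def del (c : α → ℕ) (D : Finset α) : List α → (ℕ → ℕ)
  | [] => id
  | z :: L => if z ∈ D then step (del c D L) (c z) else del c D L

lemma del_congr (c : α → ℕ) (D D' : Finset α) : ∀ (L : List α), (∀ z ∈ L, z ∈ D ↔ z ∈ D') →
    del c D L = del c D' L := by
  intro L
  induction L with
  | nil => intro _; rfl
  | cons z L ih =>
    intro h
    have h1 := ih (fun y hy => h y (List.mem_cons_of_mem _ hy))
    have h2 := h z List.mem_cons_self
    simp only [del, h1, h2]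

lemma R_id (q p : ℕ) : R id q p = min p q := by
  induction p with
  | zero => simp [R, cnt_zero]
  | succ p ih => rw [R_succ, ih]; simp only [id]; split_ifs <;> omega

lemma R_le (w : ℕ → ℕ) (q p : ℕ) : R w q p ≤ p := by
  unfold R cnt
  exact (card_filter_le _ _).trans (by simp)

lemma purity (c : α → ℕ) (m : ℕ) : ∀ (L : List α), L.Nodup → (∀ z ∈ L, c z + 2 ≤ m) →
    ∀ (D : Finset α) (π : ℕ → ℕ), Function.Injective π →
    (∀ q ≤ m, ∀ p ≤ m, R (del c D L) q p ≤ R π q p) →
    (∀ z ∈ L, z ∈ D → ∃ q ≤ m, ∃ p ≤ m, R π q p < R (del c (D.erase z) L) q p) →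
    (L.filter (fun z => z ∈ D)).length = inv m π := by
  intro L
  induction L with
  | nil =>
    intro _ _ D π hinj hle _
    have hle' : ∀ i < m, π i ≤ i := by
      intro i hi
      have h1 := hle (i+1) (by omega) (i+1) (by omega)
      simp only [del] at h1
      rw [R_id, Nat.min_self, R_succ] at h1
      have h2 := R_le π (i+1) i
      split_ifs at h1 with h3 <;> omega
    have heq : ∀ i, i < m → π i = i := by
      intro i
      induction i using Nat.strong_induction_on with
      | _ i ih =>
        intro hi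
        by_contra hne
        have h1 := hle' i hi
        have h2 := ih (π i) (by omega) (by omega)
        have := hinj h2
        omega
    have : inv m π = 0 := by
      unfold inv
      refine sum_eq_zero (fun i hi => ?_)
      have hi' := mem_range.1 hi
      unfold cnt
      rw [card_eq_zero, filter_eq_empty_iff]
      intro j hj
      have hj' := mem_range.1 hj
      rw [heq i hi', heq j (by omega)]
      omega
    rw [this]
    simp
  | cons z L ih =>
    intro hnd hc D π hinj hle hmin
    have hzL : z ∉ L := (List.nodup_cons.1 hnd).1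
    have hndL := (List.nodup_cons.1 hnd).2
    have hcz := hc z List.mem_cons_self
    have hcL : ∀ y ∈ L, c y + 2 ≤ m := fun y hy => hc y (List.mem_cons_of_mem _ hy)
    by_cases hz : z ∈ D
    · have hdel : del c D (z :: L) = step (del c D L) (c z) := by simp [del, hz]
      have hdelz : del c (D.erase z) (z :: L) = del c D L := by
        have h1 : del c (D.erase z) (z :: L) = del c (D.erase z) L := by simp [del]
        rw [h1]
        refine del_congr c _ _ L (fun y hy => ?_)
        have : y ≠ z := fun h => hzL (h ▸ hy)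
        simp [this]
      set v := del c D L with hv
      -- common computation
      have key : ∀ ρ : ℕ → ℕ, ρ (c z) ≤ ρ (c z + 1) →
          (∀ q ≤ m, ∀ p ≤ m, p ≠ c z + 1 → R π q p = R ρ q p) →
          ∀ q ≤ m, ∀ p ≤ m, R v q p ≤ R ρ q p := by
        intro ρ hρ hρπ q hq p hp
        have hle1 : ∀ p' ≤ m, p' ≠ c z + 1 → R v q p' ≤ R ρ q p' := by
          intro p' hp' hne
          have := hle q hq p' hp'
          rw [hdel, R_step_ne _ _ _ _ hne] at this
          rw [← hρπ q hq p' hp' hne]
          exact this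
        by_cases hpc : p = c z + 1
        · subst hpc
          rw [R_asc ρ (c z) q hρ]
          have h1 := R_le_min v (c z) q
          have h2 := hle1 (c z) (by omega) (by omega)
          have h3 := hle1 (c z + 2) (by omega) (by omega)
          omega
        · exact hle1 p hp hpc
      have hdesc : π (c z + 1) < π (c z) := by
        by_contra hcon
        have h1 := key π (by omega) (fun q _ p _ _ => rfl)
        obtain ⟨q, hq, p, hp, h2⟩ := hmin z List.mem_cons_self hz
        rw [hdelz] at h2
        exact absurd (h1 q hq p hp) (by omega)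
      have hρ : sw π (c z) (c z) < sw π (c z) (c z + 1) := by
        rw [sw_left, sw_right]; exact hdesc
      have hle' := key (sw π (c z)) hρ.le (fun q _ p _ hne => (cnt_sw_ne _ π (c z) p hne).symm)
      have hstep : step (sw π (c z)) (c z) = π := by
        unfold step
        rw [if_pos hρ, sw_sw]
      have hmin' : ∀ y ∈ L, y ∈ D → ∃ q ≤ m, ∃ p ≤ m,
          R (sw π (c z)) q p < R (del c (D.erase y) L) q p := by
        intro y hy hyD
        by_contra hcon
        push Not at hcon
        obtain ⟨q, hq, p, hp, h2⟩ := hmin y (List.mem_cons_of_mem _ hy) hyD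
        have hyz : y ≠ z := fun h => hzL (h ▸ hy)
        have h3 : del c (D.erase y) (z :: L) = step (del c (D.erase y) L) (c z) := by
          have : z ∈ D.erase y := by simp [hz, hyz.symm]
          simp only [del, if_pos this]
        rw [h3] at h2
        by_cases hpc : p = c z + 1
        · subst hpc
          rw [← hstep, R_step_eq, R_step_eq] at h2
          have h4 := hcon q hq (c z) (by omega)
          have h5 := hcon q hq (c z + 2) (by omega)
          omega
        · rw [← hstep, R_step_ne _ _ _ _ hpc, R_step_ne _ _ _ _ hpc] at h2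
          have h4 := hcon q hq p hp
          omega
      have hcard := ih hndL hcL D (sw π (c z)) (sw_inj π _ hinj) hle' hmin'
      have hf : ((z :: L).filter (fun z => z ∈ D)).length
          = (L.filter (fun z => z ∈ D)).length + 1 := by
        rw [List.filter_cons_of_pos (by simpa using hz), List.length_cons]
      rw [hf, hcard]
      obtain ⟨d, hd⟩ := Nat.exists_eq_add_of_le hcz
      have h5 := inv_sw (sw π (c z)) (c z) hρ d
      rw [sw_sw, ← hd] at h5
      omega
    · have hdel : ∀ D' : Finset α, z ∉ D' → del c D' (z :: L) = del c D' L := by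
        intro D' h; simp [del, h]
      have hf : ((z :: L).filter (fun z => z ∈ D)) = (L.filter (fun z => z ∈ D)) := by
        rw [List.filter_cons_of_neg (by simpa using hz)]
      rw [hf]
      refine ih hndL hcL D π hinj ?_ ?_
      · intro q hq p hp
        have := hle q hq p hp
        rwa [hdel D hz] at this
      · intro y hy hyD
        obtain ⟨q, hq, p, hp, h⟩ := hmin y (List.mem_cons_of_mem _ hy) hyD
        rw [hdel _ (by simp [hz])] at h
        exact ⟨q, hq, p, hp, h⟩

end Pool.Agent.R671.JS
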